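import Pool.Agent.Helper32.Bridged.Defs

set_option autoImplicit false
open Filter

namespace Pool.Agent.Helper8.Bridged

open Pool.Agent.Helper32.Bridged

variable {V : Type} {G : SimpleGraph V} {nb : V → Finset V} {f : V → V}

section
open Classical

theorem card_ball_le (N : ℕ) (hcard : ∀ v, (nb v).card ≤ N) (j : ℕ) (z : V) :
    (ball nb j z).card ≤ (N + 1) ^ j := by
  induction j with
  | zero => simp [ball]
  | succ j ih =>
    rw [ball]
    refine (Finset.card_biUnion_le).trans ?_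
    calc ∑ w ∈ ball nb j z, (insert w (nb w)).card
        ≤ ∑ w ∈ ball nb j z, (N + 1) := by
          refine Finset.sum_le_sum fun w _ => ?_
          exact (Finset.card_insert_le _ _).trans (by have := hcard w; omega)
      _ = (ball nb j z).card * (N + 1) := by simp
      _ ≤ (N + 1) ^ j * (N + 1) := Nat.mul_le_mul_right _ ih
      _ = (N + 1) ^ (j + 1) := by ring

theorem ball_subset_succ (j : ℕ) (z : V) : ball nb j z ⊆ ball nb (j + 1) z := by
  intro w hw
  rw [ball]
  exact Finset.mem_biUnion.2 ⟨w, hw, Finset.mem_insert_self _ _⟩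

theorem ball_mono {j k : ℕ} (h : j ≤ k) (z : V) : ball nb j z ⊆ ball nb k z := by
  induction h with
  | refl => exact subset_rfl
  | step _ ih => exact ih.trans (ball_subset_succ _ _)

theorem map_ball (hnb : ∀ v w, w ∈ nb v ↔ G.Adj v w)
    (h1 : ∀ x y, G.Adj x y → f x = f y ∨ G.Adj (f x) (f y)) (j : ℕ) (z w : V)
    (hw : w ∈ ball nb j z) : f w ∈ ball nb j (f z) := by
  induction j generalizing w with
  | zero =>
    simp only [ball, Finset.mem_singleton] at hw ⊢
    rw [hw]
  | succ j ih =>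
    rw [ball] at hw
    obtain ⟨v, hv, hwv⟩ := Finset.mem_biUnion.1 hw
    rw [ball]
    have := ih v hv
    rcases Finset.mem_insert.1 hwv with rfl | hwv
    · exact Finset.mem_biUnion.2 ⟨f w, this, Finset.mem_insert_self _ _⟩
    · have hadj := (hnb _ _).1 hwv
      refine Finset.mem_biUnion.2 ⟨f v, this, ?_⟩
      rcases h1 _ _ hadj with h | h
      · rw [h]; exact Finset.mem_insert_self _ _
      · exact Finset.mem_insert_of_mem ((hnb _ _).2 h)

theorem map_ball_iter (hnb : ∀ v w, w ∈ nb v ↔ G.Adj v w)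
    (h1 : ∀ x y, G.Adj x y → f x = f y ∨ G.Adj (f x) (f y)) (j h : ℕ) (z w : V)
    (hw : w ∈ ball nb j z) : f^[h] w ∈ ball nb j (f^[h] z) := by
  induction h with
  | zero => simpa using hw
  | succ h ih =>
    rw [Function.iterate_succ_apply', Function.iterate_succ_apply']
    exact map_ball hnb h1 _ _ _ ih

/-- equal pairs -/
noncomputable def EqS (nb : V → Finset V) (f : V → V) (R : ℕ) (z : V) (h : ℕ) : Finset (V × V) :=
  (ball nb R z ×ˢ ball nb R z).filter (fun p => f^[h] p.1 = f^[h] p.2)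

/-- equal or adjacent pairs -/
noncomputable def AdS (G : SimpleGraph V) (nb : V → Finset V) (f : V → V) (R : ℕ) (z : V)
    (h : ℕ) : Finset (V × V) :=
  (ball nb R z ×ˢ ball nb R z).filter
    (fun p => f^[h] p.1 = f^[h] p.2 ∨ G.Adj (f^[h] p.1) (f^[h] p.2))

theorem EqS_mono (R : ℕ) (z : V) {h k : ℕ} (hk : h ≤ k) :
    EqS nb f R z h ⊆ EqS nb f R z k := by
  induction hk with
  | refl => exact subset_rfl
  | step _ ih =>
    refine ih.trans ?_
    intro p hp
    simp only [EqS, Finset.mem_filter] at hp ⊢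
    refine ⟨hp.1, ?_⟩
    rw [Nat.succ_eq_add_one, Function.iterate_succ_apply', Function.iterate_succ_apply', hp.2]

theorem AdS_mono (h1 : ∀ x y, G.Adj x y → f x = f y ∨ G.Adj (f x) (f y))
    (R : ℕ) (z : V) {h k : ℕ} (hk : h ≤ k) :
    AdS G nb f R z h ⊆ AdS G nb f R z k := by
  induction hk with
  | refl => exact subset_rfl
  | step _ ih =>
    refine ih.trans ?_
    intro p hp
    simp only [AdS, Finset.mem_filter] at hp ⊢
    refine ⟨hp.1, ?_⟩
    rw [Nat.succ_eq_add_one, Function.iterate_succ_apply', Function.iterate_succ_apply']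
    rcases hp.2 with h | h
    · left; rw [h]
    · exact h1 _ _ h

/-- the potential -/
noncomputable def phi (G : SimpleGraph V) (nb : V → Finset V) (f : V → V) (R : ℕ) (z : V)
    (h : ℕ) : ℕ := (EqS nb f R z h).card + (AdS G nb f R z h).card

theorem phi_mono (h1 : ∀ x y, G.Adj x y → f x = f y ∨ G.Adj (f x) (f y))
    (R : ℕ) (z : V) {h k : ℕ} (hk : h ≤ k) : phi G nb f R z h ≤ phi G nb f R z k :=
  Nat.add_le_add (Finset.card_le_card (EqS_mono R z hk)) (Finset.card_le_card (AdS_mono h1 R z hk))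

theorem phi_le (N : ℕ) (hcard : ∀ v, (nb v).card ≤ N) (R : ℕ) (z : V) (h : ℕ) :
    phi G nb f R z h ≤ 2 * ((N + 1) ^ R * (N + 1) ^ R) := by
  have hb := card_ball_le N hcard R z
  have h0 : (ball nb R z ×ˢ ball nb R z).card ≤ (N + 1) ^ R * (N + 1) ^ R := by
    rw [Finset.card_product]
    exact Nat.mul_le_mul hb hb
  have h1 : (EqS nb f R z h).card ≤ (N + 1) ^ R * (N + 1) ^ R :=
    (Finset.card_filter_le _ _).trans h0
  have h2 : (AdS G nb f R z h).card ≤ (N + 1) ^ R * (N + 1) ^ R :=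
    (Finset.card_filter_le _ _).trans h0
  unfold phi
  omega

theorem stab_sets (h1 : ∀ x y, G.Adj x y → f x = f y ∨ G.Adj (f x) (f y))
    (R : ℕ) (z : V) (H : ℕ) (hs : phi G nb f R z (2 * H) = phi G nb f R z H) :
    EqS nb f R z H = EqS nb f R z (2 * H) ∧ AdS G nb f R z H = AdS G nb f R z (2 * H) := by
  have hk : H ≤ 2 * H := by omega
  have e1 := EqS_mono (nb := nb) (f := f) R z hk
  have e2 := AdS_mono (nb := nb) h1 R z hk
  have c1 := Finset.card_le_card e1
  have c2 := Finset.card_le_card e2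
  unfold phi at hs
  exact ⟨Finset.eq_of_subset_of_card_le e1 (by omega),
    Finset.eq_of_subset_of_card_le e2 (by omega)⟩

theorem stab_inj (h1 : ∀ x y, G.Adj x y → f x = f y ∨ G.Adj (f x) (f y))
    (R : ℕ) (z : V) (H : ℕ) (hs : phi G nb f R z (2 * H) = phi G nb f R z H) :
    ∀ u ∈ ball nb R z, ∀ v ∈ ball nb R z, f^[2 * H] u = f^[2 * H] v → f^[H] u = f^[H] v := by
  intro u hu v hv h
  have h2 : (u, v) ∈ EqS nb f R z (2 * H) := by
    simp only [EqS, Finset.mem_filter, Finset.mem_product]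
    exact ⟨⟨hu, hv⟩, h⟩
  rw [← (stab_sets h1 R z H hs).1] at h2
  simp only [EqS, Finset.mem_filter, Finset.mem_product] at h2
  exact h2.2

theorem stab_adj (h1 : ∀ x y, G.Adj x y → f x = f y ∨ G.Adj (f x) (f y))
    (R : ℕ) (z : V) (H : ℕ) (hs : phi G nb f R z (2 * H) = phi G nb f R z H) :
    ∀ u ∈ ball nb R z, ∀ v ∈ ball nb R z, G.Adj (f^[2 * H] u) (f^[2 * H] v) →
      G.Adj (f^[H] u) (f^[H] v) := by
  intro u hu v hv h
  have h2 : (u, v) ∈ AdS G nb f R z (2 * H) := by
    simp only [AdS, Finset.mem_filter, Finset.mem_product]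
    exact ⟨⟨hu, hv⟩, Or.inr h⟩
  rw [← (stab_sets h1 R z H hs).2] at h2
  simp only [AdS, Finset.mem_filter, Finset.mem_product] at h2
  rcases h2.2 with h3 | h3
  · exfalso
    have : f^[2 * H] u = f^[2 * H] v := by
      rw [two_mul, Function.iterate_add_apply, Function.iterate_add_apply, h3]
    rw [this] at h
    exact G.irrefl h
  · exact h3

/-- number of classes -/
noncomputable def aa (nb : V → Finset V) (f : V → V) (j H : ℕ) (z : V) : ℕ :=
  ((ball nb j z).image (f^[H])).card

theorem aa_le (N : ℕ) (hcard : ∀ v, (nb v).card ≤ N) {R j : ℕ} (hj : j ≤ R) (H : ℕ) (z : V) :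
    aa nb f j H z ≤ (N + 1) ^ R :=
  (Finset.card_image_le).trans ((card_ball_le N hcard j z).trans
    (Nat.pow_le_pow_right (by omega) hj))

theorem aa_stab (hnb : ∀ v w, w ∈ nb v ↔ G.Adj v w)
    (h1 : ∀ x y, G.Adj x y → f x = f y ∨ G.Adj (f x) (f y))
    {R j : ℕ} (hj : j ≤ R) (z : V) (H : ℕ)
    (hs : phi G nb f R z (2 * H) = phi G nb f R z H) :
    aa nb f j H z ≤ aa nb f j H (f^[H] z) ∧
      (¬ (ball nb j (f^[H] z)).image (f^[H]) ⊆ (ball nb j z).image (f^[2 * H]) →
        aa nb f j H z + 1 ≤ aa nb f j H (f^[H] z)) := by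
  have hinj := stab_inj h1 R z H hs
  have hsub : (ball nb j z).image (f^[2 * H]) ⊆ (ball nb j (f^[H] z)).image (f^[H]) := by
    intro w hw
    obtain ⟨u, hu, rfl⟩ := Finset.mem_image.1 hw
    refine Finset.mem_image.2 ⟨f^[H] u, map_ball_iter hnb h1 j H z u hu, ?_⟩
    rw [two_mul, Function.iterate_add_apply]
  have hcardeq : ((ball nb j z).image (f^[2 * H])).card = aa nb f j H z := by
    have himg : (ball nb j z).image (f^[2 * H])
        = ((ball nb j z).image (f^[H])).image (f^[H]) := by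
      rw [Finset.image_image, two_mul, Function.iterate_add]
    rw [himg]
    unfold aa
    refine Finset.card_image_of_injOn ?_
    intro a ha b hb hab
    obtain ⟨u, hu, rfl⟩ := Finset.mem_image.1 (Finset.mem_coe.1 ha)
    obtain ⟨v, hv, rfl⟩ := Finset.mem_image.1 (Finset.mem_coe.1 hb)
    refine hinj u (ball_mono hj z hu) v (ball_mono hj z hv) ?_
    rw [two_mul, Function.iterate_add_apply, Function.iterate_add_apply]
    exact hab
  constructor
  · rw [← hcardeq]
    exact Finset.card_le_card hsub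
  · intro hn
    rw [← hcardeq]
    exact Finset.card_lt_card ⟨hsub, hn⟩

/-- abstract counting: `a` bounded by `A`, differences -/
theorem count_steps (a : ℕ → ℕ) (A H L : ℕ) (ha : ∀ s, a s ≤ A) (S T : Finset ℕ)
    (hT : T ⊆ Finset.range L) (hS : S ⊆ Finset.range L) (hTS : Disjoint S T)
    (h0 : ∀ s ∈ Finset.range L, s ∉ S → a s ≤ a (s + H))
    (hT1 : ∀ s ∈ T, a s + 1 ≤ a (s + H)) :
    T.card ≤ H * A + S.card * A := by
  -- sum of a over range L plus T.card ≤ sum a(s+H) + A * S.card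
  have key : ∑ s ∈ Finset.range L, a s + T.card ≤ ∑ s ∈ Finset.range L, a (s + H) + S.card * A := by
    have e1 : T.card = ∑ s ∈ Finset.range L, (if s ∈ T then 1 else 0) := by
      rw [Finset.sum_ite_mem, Finset.inter_eq_right.2 hT]; simp
    have e2 : S.card * A = ∑ s ∈ Finset.range L, (if s ∈ S then A else 0) := by
      rw [Finset.sum_ite_mem, Finset.inter_eq_right.2 hS]; simp
    rw [e1, e2, ← Finset.sum_add_distrib, ← Finset.sum_add_distrib]
    refine Finset.sum_le_sum fun s hs => ?_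
    by_cases hsS : s ∈ S
    · have hsT : s ∉ T := Finset.disjoint_left.1 hTS hsS
      simp only [hsS, hsT, if_true, if_false]
      have := ha s
      omega
    · by_cases hsT : s ∈ T
      · simp only [hsS, hsT, if_true, if_false]
        have := hT1 s hsT
        omega
      · simp only [hsS, hsT, if_false]
        have := h0 s hs hsS
        omega
  have e3 : ∑ s ∈ Finset.range L, a (s + H) + ∑ s ∈ Finset.range H, a s
      = ∑ s ∈ Finset.range (L + H), a s := by
    rw [add_comm L H, Finset.sum_range_add, add_comm]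
    congr 1
    refine Finset.sum_congr rfl fun s _ => ?_
    rw [add_comm]
  have e4 : ∑ s ∈ Finset.range (L + H), a s
      = ∑ s ∈ Finset.range L, a s + ∑ s ∈ Finset.range H, a (L + s) := by
    rw [Finset.sum_range_add]
  have e5 : ∑ s ∈ Finset.range H, a (L + s) ≤ H * A := by
    refine (Finset.sum_le_card_nsmul _ _ A fun s _ => ha _).trans ?_
    simp
  omega

/-- unstable positions -/
noncomputable def UU (G : SimpleGraph V) (nb : V → Finset V) (f : V → V) (R L : ℕ) (x : V)
    (H : ℕ) : Finset ℕ :=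
  (Finset.range L).filter (fun s => ¬ phi G nb f R (f^[s] x) (2 * H) = phi G nb f R (f^[s] x) H)

theorem sum_unstable (N : ℕ) (hcard : ∀ v, (nb v).card ≤ N)
    (h1 : ∀ x y, G.Adj x y → f x = f y ∨ G.Adj (f x) (f y)) (R Q L : ℕ) (x : V) :
    ∑ i ∈ Finset.range Q, (UU G nb f R L x (2 ^ i)).card
      ≤ 2 * ((N + 1) ^ R * (N + 1) ^ R) * L := by
  have hz : ∀ z, ((Finset.range Q).filter
      (fun i => ¬ phi G nb f R z (2 * 2 ^ i) = phi G nb f R z (2 ^ i))).card
        ≤ 2 * ((N + 1) ^ R * (N + 1) ^ R) := by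
    intro z
    have hstep : ∀ q, ((Finset.range q).filter
      (fun i => ¬ phi G nb f R z (2 * 2 ^ i) = phi G nb f R z (2 ^ i))).card
        ≤ phi G nb f R z (2 ^ q) := by
      intro q
      induction q with
      | zero => simp
      | succ q ih =>
        rw [Finset.range_add_one, Finset.filter_insert]
        have hm : phi G nb f R z (2 ^ q) ≤ phi G nb f R z (2 ^ (q + 1)) :=
          phi_mono h1 R z (Nat.pow_le_pow_right (by norm_num) (by omega))
        have he : (2 : ℕ) ^ (q + 1) = 2 * 2 ^ q := by ring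
        by_cases hq : phi G nb f R z (2 * 2 ^ q) = phi G nb f R z (2 ^ q)
        · rw [if_neg (not_not.2 hq)]
          exact ih.trans hm
        · rw [if_pos hq]
          refine (Finset.card_insert_le _ _).trans ?_
          rw [he] at hm ⊢
          omega
    exact (hstep Q).trans (phi_le N hcard R z _)
  calc ∑ i ∈ Finset.range Q, (UU G nb f R L x (2 ^ i)).card
      = ∑ i ∈ Finset.range Q, ∑ s ∈ Finset.range L,
          (if ¬ phi G nb f R (f^[s] x) (2 * 2 ^ i) = phi G nb f R (f^[s] x) (2 ^ i)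
            then 1 else 0) := by
        refine Finset.sum_congr rfl fun i _ => ?_
        rw [UU, Finset.card_filter]
    _ = ∑ s ∈ Finset.range L, ∑ i ∈ Finset.range Q,
          (if ¬ phi G nb f R (f^[s] x) (2 * 2 ^ i) = phi G nb f R (f^[s] x) (2 ^ i)
            then 1 else 0) := Finset.sum_comm
    _ = ∑ s ∈ Finset.range L, ((Finset.range Q).filter
          (fun i => ¬ phi G nb f R (f^[s] x) (2 * 2 ^ i) = phi G nb f R (f^[s] x) (2 ^ i))).card := by
        refine Finset.sum_congr rfl fun s _ => ?_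
        rw [Finset.card_filter]
    _ ≤ ∑ s ∈ Finset.range L, 2 * ((N + 1) ^ R * (N + 1) ^ R) :=
        Finset.sum_le_sum fun s _ => hz _
    _ = 2 * ((N + 1) ^ R * (N + 1) ^ R) * L := by simp [mul_comm]

theorem bad_scale (N : ℕ) (hnb : ∀ v w, w ∈ nb v ↔ G.Adj v w) (hcard : ∀ v, (nb v).card ≤ N)
    (h1 : ∀ x y, G.Adj x y → f x = f y ∨ G.Adj (f x) (f y)) (R L : ℕ) (x : V) (H : ℕ) :
    ((Finset.range L).filter (fun s => ¬ Good G nb f R H (f^[s] x))).card
      ≤ (UU G nb f R L x H).card +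
        (R + 1) * (H * (N + 1) ^ R + (UU G nb f R L x H).card * (N + 1) ^ R) := by
  set U := UU G nb f R L x H with hU
  let T : ℕ → Finset ℕ := fun j => (Finset.range L \ U).filter (fun s =>
    ¬ (ball nb j (f^[H] (f^[s] x))).image (f^[H]) ⊆ (ball nb j (f^[s] x)).image (f^[2 * H]))
  have hUs : ∀ s ∈ Finset.range L, s ∉ U →
      phi G nb f R (f^[s] x) (2 * H) = phi G nb f R (f^[s] x) H := by
    intro s hs hsU
    by_contra hcon
    exact hsU (Finset.mem_filter.2 ⟨hs, hcon⟩)
  have hsub : (Finset.range L).filter (fun s => ¬ Good G nb f R H (f^[s] x))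
      ⊆ U ∪ (Finset.range (R + 1)).biUnion T := by
    intro s hs
    obtain ⟨hsL, hsG⟩ := Finset.mem_filter.1 hs
    by_cases hsU : s ∈ U
    · exact Finset.mem_union_left _ hsU
    · refine Finset.mem_union_right _ ?_
      have hst := hUs s hsL hsU
      by_contra hcon
      refine hsG ⟨stab_inj h1 R _ H hst, stab_adj h1 R _ H hst, ?_⟩
      intro j hj
      by_contra hnj
      exact hcon (Finset.mem_biUnion.2 ⟨j, Finset.mem_range.2 (by omega),
        Finset.mem_filter.2 ⟨Finset.mem_sdiff.2 ⟨hsL, hsU⟩, hnj⟩⟩)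
  have hT : ∀ j ∈ Finset.range (R + 1), (T j).card ≤ H * (N + 1) ^ R + U.card * (N + 1) ^ R := by
    intro j hj
    have hjR : j ≤ R := by have := Finset.mem_range.1 hj; omega
    have hit : ∀ s, f^[H] (f^[s] x) = f^[s + H] x := by
      intro s
      rw [add_comm, Function.iterate_add_apply]
    refine count_steps (fun s => aa nb f j H (f^[s] x)) ((N + 1) ^ R) H L
      (fun s => aa_le N hcard hjR H _) U (T j) ?_ (Finset.filter_subset _ _) ?_ ?_ ?_
    · exact (Finset.filter_subset _ _).trans Finset.sdiff_subset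
    · rw [Finset.disjoint_right]
      intro s hs
      exact (Finset.mem_sdiff.1 (Finset.mem_filter.1 hs).1).2
    · intro s hs hsU
      have := (aa_stab hnb h1 hjR (f^[s] x) H (hUs s hs hsU)).1
      rw [hit] at this
      exact this
    · intro s hs
      obtain ⟨hs1, hs2⟩ := Finset.mem_filter.1 hs
      obtain ⟨hsL, hsU⟩ := Finset.mem_sdiff.1 hs1
      have := (aa_stab hnb h1 hjR (f^[s] x) H (hUs s hsL hsU)).2 hs2
      rw [hit] at this
      exact this
  refine (Finset.card_le_card hsub).trans ((Finset.card_union_le _ _).trans ?_)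
  refine Nat.add_le_add_left (Finset.card_biUnion_le.trans ?_) _
  refine (Finset.sum_le_sum hT).trans ?_
  simp

end

open Classical in
/-- PACKET C: most positions of a ray are good at most scales. -/
theorem bad_count {V : Type} (G : SimpleGraph V) (nb : V → Finset V) (f : V → V)
    (N : ℕ) (hnb : ∀ v w, w ∈ nb v ↔ G.Adj v w) (hcard : ∀ v, (nb v).card ≤ N)
    (h1 : ∀ x y, G.Adj x y → f x = f y ∨ G.Adj (f x) (f y))
    (R : ℕ) (δ : ℝ) (hδ : 0 < δ) :
    ∃ Q L : ℕ, 0 < Q ∧ 0 < L ∧ 1 ≤ δ * L ∧ ∀ x : V,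
      ((((Finset.range Q ×ˢ Finset.range L).filter
        (fun p => ¬ Good G nb f R (2 ^ p.1) (f^[p.2] x))).card : ℕ) : ℝ) ≤ δ * (Q * L) := by
  set A : ℕ := (N + 1) ^ R with hA
  set K : ℕ := 2 * (A * A) with hK
  obtain ⟨Q, hQ⟩ := exists_nat_ge (2 * (1 + (R + 1) * A) * K / δ + 1 : ℝ)
  have hpos0 : (0 : ℝ) ≤ 2 * (1 + (R + 1) * A) * K / δ := by positivity
  have hQ1 : (1 : ℝ) ≤ Q := by linarith
  have hQpos : 0 < Q := by exact_mod_cast (by linarith : (0 : ℝ) < Q)
  obtain ⟨L, hL⟩ := exists_nat_ge (2 * ((R + 1) * A * 2 ^ Q) / (δ * Q) + 1 / δ + 1 : ℝ)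
  have hpos1 : (0 : ℝ) ≤ 2 * ((R + 1) * A * 2 ^ Q) / (δ * Q) := by positivity
  have hpos2 : (0 : ℝ) ≤ 1 / δ := by positivity
  have hL1 : (1 : ℝ) ≤ L := by linarith
  have hLpos : 0 < L := by exact_mod_cast (by linarith : (0 : ℝ) < L)
  refine ⟨Q, L, hQpos, hLpos, ?_, ?_⟩
  · have h2 : 1 / δ ≤ (L : ℝ) := by linarith
    rw [div_le_iff₀ hδ] at h2
    linarith
  intro x
  have hnat : ((Finset.range Q ×ˢ Finset.range L).filter
        (fun p => ¬ Good G nb f R (2 ^ p.1) (f^[p.2] x))).card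
      ≤ (1 + (R + 1) * A) * (K * L) + (R + 1) * A * 2 ^ Q := by
    have e1 : ((Finset.range Q ×ˢ Finset.range L).filter
        (fun p => ¬ Good G nb f R (2 ^ p.1) (f^[p.2] x))).card
        = ∑ i ∈ Finset.range Q, ((Finset.range L).filter
            (fun s => ¬ Good G nb f R (2 ^ i) (f^[s] x))).card := by
      rw [Finset.card_filter, Finset.sum_product]
      refine Finset.sum_congr rfl fun i _ => ?_
      rw [Finset.card_filter]
    rw [e1]
    have hs := sum_unstable (G := G) (nb := nb) (f := f) N hcard h1 R Q L x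
    have hgeom : ∑ i ∈ Finset.range Q, 2 ^ i ≤ 2 ^ Q := by
      have := Nat.geomSum_lt (m := 2) (n := Q) (s := Finset.range Q) (le_refl 2) (by simp)
      exact this.le
    calc ∑ i ∈ Finset.range Q, ((Finset.range L).filter
            (fun s => ¬ Good G nb f R (2 ^ i) (f^[s] x))).card
        ≤ ∑ i ∈ Finset.range Q, ((UU G nb f R L x (2 ^ i)).card +
        (R + 1) * (2 ^ i * A + (UU G nb f R L x (2 ^ i)).card * A)) :=
          Finset.sum_le_sum fun i _ => bad_scale N hnb hcard h1 R L x (2 ^ i)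
      _ = (1 + (R + 1) * A) * (∑ i ∈ Finset.range Q, (UU G nb f R L x (2 ^ i)).card)
          + (R + 1) * A * ∑ i ∈ Finset.range Q, 2 ^ i := by
          rw [Finset.mul_sum, Finset.mul_sum, ← Finset.sum_add_distrib]
          refine Finset.sum_congr rfl fun i _ => ?_
          ring
      _ ≤ (1 + (R + 1) * A) * (K * L) + (R + 1) * A * 2 ^ Q :=
          Nat.add_le_add (Nat.mul_le_mul_left _ hs) (Nat.mul_le_mul_left _ hgeom)
  have hreal : ((((Finset.range Q ×ˢ Finset.range L).filter
        (fun p => ¬ Good G nb f R (2 ^ p.1) (f^[p.2] x))).card : ℕ) : ℝ)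
      ≤ (1 + (R + 1) * A) * (K * L) + (R + 1) * A * 2 ^ Q := by
    exact_mod_cast hnat
  refine hreal.trans ?_
  have h3 : 2 * (1 + (R + 1) * A) * K ≤ δ * Q := by
    have : 2 * (1 + (R + 1) * A) * K / δ ≤ (Q : ℝ) := by linarith
    rw [div_le_iff₀ hδ] at this
    linarith
  have h4 : 2 * ((R + 1) * A * 2 ^ Q) ≤ δ * Q * L := by
    have : 2 * ((R + 1) * A * 2 ^ Q) / (δ * Q) ≤ (L : ℝ) := by linarith
    rw [div_le_iff₀ (by positivity)] at this
    linarith
  have h5 : 2 * (1 + (R + 1) * A) * K * L ≤ δ * Q * L :=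
    mul_le_mul_of_nonneg_right h3 (by linarith)
  nlinarith

end Pool.Agent.Helper8.Bridged
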